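import Pool.Agent.Y517.KC.DiscA

/-!
Maps from the punctured disc to a cover, which are highly ramified over the coordinate hyperplanes.
-/

set_option autoImplicit false

namespace Pool.Agent.Y517.KC

open Filter Metric Set Topology MvPolynomial Pool.Agent.Y192.KC Pool.Agent.Y192.OG
  Pool.Agent.W601.SM Pool.Agent.W601.PH Pool.Agent.W603.BP

variable {n r : ℕ}

/-- evaluation at a point, as a homomorphism -/
noncomputable def evalU (c : Curve n) {z : ℂ} (hz : z ∈ c.U) : c.Mr →ₐ[ℂ] ℂ :=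
  (Pi.evalAlgHom ℂ (fun _ : c.U => ℂ) ⟨z, hz⟩).comp c.Mr.val

theorem evalU_apply (c : Curve n) {z : ℂ} (hz : z ∈ c.U) (f : c.Mr) :
    evalU c hz f = c.val f z := by
  unfold Curve.val
  rw [c.ext_of_mem _ hz]
  rfl

/-- the Laurent polynomial of a form, along a curve -/
theorem val_laur (c : Curve n) (g : MvPolynomial (Fin (n + 1)) ℂ) {z : ℂ} (hz : z ∈ c.U) :
    c.val (c.ev (laur g)) z = eval (fun i => c.X i z / c.X 0 z) g := by
  rw [← evalU_apply c hz, laur, ← AlgHom.comp_apply, ← AlgHom.comp_apply, comp_aeval, ← aeval_eq_eval]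
  congr 2
  funext i
  refine Fin.cases ?_ (fun i => ?_) i
  · rw [Fin.cons_zero, map_one, div_self (hz.2 0)]
  · rw [Fin.cons_succ, AlgHom.comp_apply, c.ev_single, one_smul, evalU_apply, c.val_mon _ hz]
    unfold Curve.monf
    rw [Finset.prod_eq_single i]
    · rw [Pi.single_eq_same, zpow_one]
      rfl
    · intro k _ hk
      rw [Pi.single_eq_of_ne hk, zpow_zero]
    · intro hi
      exact absurd (Finset.mem_univ i) hi

/-- orders of polynomials in analytic functions -/
theorem isV_ord {x : Fin (n + 1) → ℂ → ℂ} {z : ℂ} (hx : ∀ i, AnalyticAt ℂ (x i) z) :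
    IsV (fun a : MvPolynomial (Fin (n + 1)) ℂ =>
      meromorphicOrderAt (fun y => eval (fun i => x i y) a) z) ∧
    ∀ a : MvPolynomial (Fin (n + 1)) ℂ, AnalyticAt ℂ (fun y => eval (fun i => x i y) a) z := by
  have han : ∀ a : MvPolynomial (Fin (n + 1)) ℂ,
      AnalyticAt ℂ (fun y => eval (fun i => x i y) a) z := by
    intro a
    induction a using MvPolynomial.induction_on with
    | C a =>
      simp only [eval_C]
      exact analyticAt_const
    | add a b ha hb =>
      simp only [map_add]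
      exact ha.fun_add hb
    | mul_X a i ha =>
      simp only [map_mul, eval_X]
      exact ha.fun_mul (hx i)
  refine ⟨⟨?_, ?_, ?_, ?_⟩, han⟩
  · change meromorphicOrderAt (fun y => eval (fun i => x i y) 1) z = 0
    simp only [map_one]
    rw [(analyticAt_const (v := (1 : ℂ))).meromorphicOrderAt_eq]
    rw [(analyticAt_const (v := (1 : ℂ))).analyticOrderAt_eq_zero.mpr one_ne_zero]
    rfl
  · intro a b
    change meromorphicOrderAt (fun y => eval (fun i => x i y) (a * b)) z = _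
    simp only [map_mul]
    exact meromorphicOrderAt_mul (han a).meromorphicAt (han b).meromorphicAt
  · intro a b
    change _ ≤ meromorphicOrderAt (fun y => eval (fun i => x i y) (a + b)) z
    simp only [map_add]
    exact meromorphicOrderAt_add (han a).meromorphicAt (han b).meromorphicAt
  · intro a
    exact (han a).meromorphicOrderAt_nonneg

/-- roots of meromorphic multiples of powers -/
theorem root_mrel {f h T : ℂ → ℂ} {k : ℕ} (hk : 0 < k) (hf : Pun f) (hh : Pun h) (hn : Nz h)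
    (hT : MeromorphicAt T 0) (he : ∀ᶠ z in 𝓝[≠] (0 : ℂ), f z ^ k = T z * h z ^ k) : MRel f h := by
  apply growth_mero hf hh hn
  apply gr_of_pow hk
  exact MRel.gr ⟨T, hT, he⟩

/-- an analytic extension of a meromorphic function of nonnegative order -/
theorem nf_ext {f : ℂ → ℂ} (hf : MeromorphicAt f 0) (h0 : 0 ≤ meromorphicOrderAt f 0) :
    ∃ g : ℂ → ℂ, AnalyticAt ℂ g 0 ∧ (∀ z, z ≠ 0 → g z = f z) ∧
      (meromorphicOrderAt f 0 = 0 → g 0 ≠ 0) := by
  refine ⟨toMeromorphicNFAt f 0, ?_, ?_, ?_⟩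
  · exact hf.meromorphicOrderAt_nonneg_iff_analyticAt_toMeromorphicNFAt.mp h0
  · intro z hz
    exact (hf.eqOn_compl_singleton_toMeromorphicNFAt (show z ∈ ({0} : Set ℂ)ᶜ from hz)).symm
  · intro h1
    exact hf.meromorphicOrderAt_eq_zero_iff_toMeromorphicNFAt_ne_zero.mp h1

theorem an_of_diffOn' {m : ℕ} {f : ℂ → Fin m → ℂ}
    (hf : DifferentiableOn ℂ f (ball 0 1 \ {0})) (j : Fin m) :
    AnalyticOnNhd ℂ (fun w => f w j) (PB 1) := by
  intro w hw
  have h1 : DifferentiableOn ℂ (fun w => f w j) (ball 0 1 \ {0}) := by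
    intro z hz
    exact (differentiableWithinAt_pi.mp (hf z hz)) j
  exact h1.analyticAt ((isOpen_ball.sdiff isClosed_singleton).mem_nhds (mem_disc.mpr hw))

/-- the extension, from the relations between the coordinates -/
theorem ext_of_rel {X : Cov n r} {m : ℕ} (hm : 0 < m) (he : ∀ j, X.e j ∣ m)
    {u : ℂ → Fin (n + 1) → ℂ} {v : ℂ → Fin r → ℂ}
    (hu : ∀ i, AnalyticOnNhd ℂ (fun z => u z i) (PB 1))
    (hv : ∀ j, AnalyticOnNhd ℂ (fun z => v z j) (PB 1))
    (hu0 : ∀ z ∈ PB 1, u z ≠ 0)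
    (heqn : ∀ z ∈ PB 1, ∀ j, v z j ^ X.e j = eval (fun i => u z i ^ m) (X.F j))
    (hrel : ∀ i, ∃ T : ℂ → ℂ, MeromorphicAt T 0 ∧
      ∀ᶠ z in 𝓝[≠] (0 : ℂ), u z i ^ m = T z * u z 0 ^ m) : Extends X m u v := by
  classical
  have hPB : ∀ᶠ z in 𝓝[≠] (0 : ℂ), z ∈ PB 1 := PB_mem one_pos
  -- the zeroth coordinate does not vanish near the origin
  have hn0 : ∀ᶠ z in 𝓝[≠] (0 : ℂ), u z 0 ≠ 0 := by
    have h1 : ∀ᶠ z in 𝓝[≠] (0 : ℂ), ∀ i, u z 0 = 0 → u z i = 0 := by
      rw [Filter.eventually_all]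
      intro i
      obtain ⟨T, _, hT⟩ := hrel i
      filter_upwards [hT] with z hz h0
      rw [h0, zero_pow hm.ne', mul_zero] at hz
      exact eq_zero_of_pow_eq_zero hz
    filter_upwards [h1, hPB] with z hz hz1 h0
    exact hu0 z hz1 (funext fun i => hz i h0)
  have hNz0 : Nz (fun z => u z 0) := by
    intro h
    obtain ⟨z, hz1, hz2⟩ := (h.and hn0).exists
    exact hz2 hz1
  have hPu : ∀ i, Pun (fun z => u z i) := fun i => on_pun one_pos (hu i)
  have hPv : ∀ j, Pun (fun z => v z j) := fun j => on_pun one_pos (hv j)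
  -- the quotients
  have h1 : ∀ i, ∃ ρ : ℂ → ℂ, MeromorphicAt ρ 0 ∧ ∀ᶠ z in 𝓝[≠] (0 : ℂ), u z i = ρ z * u z 0 := by
    intro i
    obtain ⟨T, hT1, hT2⟩ := hrel i
    exact root_mrel hm (hPu i) (hPu 0) hNz0 hT1 hT2
  choose ρ hρ1 hρ2 using h1
  have hρan : ∀ A : MvPolynomial (Fin (n + 1)) ℂ,
      MeromorphicAt (fun z => eval (fun i => ρ i z ^ m) A) 0 := by
    intro A
    induction A using MvPolynomial.induction_on with
    | C a =>
      simp only [eval_C]
      exact MeromorphicAt.const a 0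
    | add a b ha hb =>
      simp only [map_add]
      exact ha.fun_add hb
    | mul_X a i ha =>
      simp only [map_mul, eval_X]
      exact ha.fun_mul ((hρ1 i).fun_pow m)
  have h2 : ∀ j, ∃ σ : ℂ → ℂ, MeromorphicAt σ 0 ∧
      ∀ᶠ z in 𝓝[≠] (0 : ℂ), v z j = σ z * u z 0 ^ X.wt m j := by
    intro j
    refine root_mrel (X.he j) (hPv j) ((hPu 0).pow _) (hNz0.pow _) (hρan (X.F j)) ?_
    have h3 : ∀ᶠ z in 𝓝[≠] (0 : ℂ), ∀ i, u z i = ρ i z * u z 0 := by
      rw [Filter.eventually_all]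
      exact hρ2
    filter_upwards [hPB, h3] with z hz h4
    rw [heqn z hz j]
    have h5 : (fun i => u z i ^ m) = fun i => u z 0 ^ m * ρ i z ^ m := by
      funext i
      rw [h4 i]
      ring
    rw [h5, ← aeval_eq_eval, hom_smul (X.hF j), aeval_eq_eval, ← pow_mul, ← pow_mul,
      mul_comm (X.wt m j), wt_mul X he j]
    ring
  choose σ hσ1 hσ2 using h2
  -- the smallest order
  obtain ⟨i0, _, hi0⟩ := Finset.exists_min_image Finset.univ
    (fun i => meromorphicOrderAt (ρ i) 0) ⟨(0 : Fin (n + 1)), Finset.mem_univ _⟩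
  have hmin : ∀ i, meromorphicOrderAt (ρ i0) 0 ≤ meromorphicOrderAt (ρ i) 0 :=
    fun i => hi0 i (Finset.mem_univ i)
  have hρ0 : meromorphicOrderAt (ρ 0) 0 = 0 := by
    have h3 : ρ 0 =ᶠ[𝓝[≠] (0 : ℂ)] fun _ => (1 : ℂ) := by
      filter_upwards [hρ2 0, hn0] with z hz hz0
      have : ρ 0 z * u z 0 = 1 * u z 0 := by rw [← hz, one_mul]
      exact mul_right_cancel₀ hz0 this
    rw [meromorphicOrderAt_congr h3, (analyticAt_const (v := (1 : ℂ))).meromorphicOrderAt_eq,
      (analyticAt_const (v := (1 : ℂ))).analyticOrderAt_eq_zero.mpr one_ne_zero]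
    rfl
  obtain ⟨a, ha⟩ : ∃ a : ℤ, meromorphicOrderAt (ρ i0) 0 = a := by
    have h3 : meromorphicOrderAt (ρ i0) 0 ≠ ⊤ := by
      intro h
      have h4 := hmin 0
      rw [h, hρ0] at h4
      exact absurd h4 (by simp)
    exact ⟨_, (WithTop.coe_untop _ h3).symm⟩
  have hzp : ∀ k : ℤ, MeromorphicAt (fun z : ℂ => z ^ k) 0 := fun k =>
    (MeromorphicAt.id 0).fun_zpow k
  have hzpo : ∀ k : ℤ, meromorphicOrderAt (fun z : ℂ => z ^ k) 0 = (k : WithTop ℤ) := by
    intro k
    rw [meromorphicOrderAt_eq_int_iff (hzp k)]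
    refine ⟨fun _ => 1, analyticAt_const, one_ne_zero, Eventually.of_forall fun z => ?_⟩
    simp
  have h3 : ∀ i, ∃ g : ℂ → ℂ, AnalyticAt ℂ g 0 ∧ (∀ z, z ≠ 0 → g z = z ^ (-a) * ρ i z) ∧
      (meromorphicOrderAt (fun z => z ^ (-a) * ρ i z) 0 = 0 → g 0 ≠ 0) := by
    intro i
    apply nf_ext ((hzp _).fun_mul (hρ1 i))
    have h4 : meromorphicOrderAt (fun z => z ^ (-a) * ρ i z) 0
        = ((-a : ℤ) : WithTop ℤ) + meromorphicOrderAt (ρ i) 0 := by
      rw [← hzpo (-a)]
      exact meromorphicOrderAt_mul (hzp _) (hρ1 i)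
    rw [h4]
    have h5 := hmin i
    rw [ha] at h5
    calc (0 : WithTop ℤ) = ((-a : ℤ) : WithTop ℤ) + (a : WithTop ℤ) := by
          rw [← WithTop.coe_add, neg_add_cancel]
          rfl
      _ ≤ _ := add_le_add_right h5 _
  choose u' hu'1 hu'2 hu'3 using h3
  have h4 : ∀ j, ∃ g : ℂ → ℂ, AnalyticAt ℂ g 0 ∧
      (∀ z, z ≠ 0 → g z = z ^ (-(a * X.wt m j)) * σ j z) := by
    intro j
    have h5 : MeromorphicAt (fun z => z ^ (-(a * X.wt m j)) * σ j z) 0 := (hzp _).fun_mul (hσ1 j)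
    suffices h6 : 0 ≤ meromorphicOrderAt (fun z => z ^ (-(a * X.wt m j)) * σ j z) 0 by
      obtain ⟨g, hg1, hg2, _⟩ := nf_ext h5 h6
      exact ⟨g, hg1, hg2⟩
    -- the power is analytic
    have h7 : (fun z => (z ^ (-(a * X.wt m j)) * σ j z) ^ X.e j) =ᶠ[𝓝[≠] (0 : ℂ)]
        fun z => eval (fun i => u' i z ^ m) (X.F j) := by
      have h8 : ∀ᶠ z in 𝓝[≠] (0 : ℂ), ∀ i, u z i = ρ i z * u z 0 := by
        rw [Filter.eventually_all]
        exact hρ2
      filter_upwards [h8, hσ2 j, hn0, hPB] with z hz1 hz2 hz3 hz4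
      have hz0 : z ≠ 0 := hz4.1
      have e1 := heqn z hz4 j
      have e2 : (fun i => u' i z ^ m) = fun i => (z ^ (-a)) ^ m * ρ i z ^ m := by
        funext i
        rw [hu'2 i z hz0, mul_pow]
      have e3 : (fun i => u z i ^ m) = fun i => u z 0 ^ m * ρ i z ^ m := by
        funext i
        rw [hz1 i]
        ring
      rw [e3, ← aeval_eq_eval, hom_smul (X.hF j), aeval_eq_eval, hz2, mul_pow, ← pow_mul, ← pow_mul,
        mul_comm (X.wt m j), wt_mul X he j, mul_comm] at e1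
      have e4 : σ j z ^ X.e j = eval (fun i => ρ i z ^ m) (X.F j) :=
        mul_left_cancel₀ (pow_ne_zero _ hz3) e1
      rw [e2, ← aeval_eq_eval, hom_smul (X.hF j), aeval_eq_eval, mul_pow, e4]
      congr 1
      rw [← pow_mul, ← wt_mul X he j, ← zpow_natCast, ← zpow_natCast, ← zpow_mul, ← zpow_mul]
      congr 1
      push_cast
      ring
    have h8 : AnalyticAt ℂ (fun z => eval (fun i => u' i z ^ m) (X.F j)) 0 :=
      (isV_ord (x := fun i z => u' i z ^ m) (fun i => (hu'1 i).fun_pow m)).2 (X.F j)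
    have h9 := h8.meromorphicOrderAt_nonneg
    rw [← meromorphicOrderAt_congr h7] at h9
    have h10 : meromorphicOrderAt (fun z => (z ^ (-(a * X.wt m j)) * σ j z) ^ X.e j) 0
        = X.e j * meromorphicOrderAt (fun z => z ^ (-(a * X.wt m j)) * σ j z) 0 :=
      meromorphicOrderAt_pow h5
    rw [h10] at h9
    have hej := X.he j
    generalize meromorphicOrderAt (fun z => z ^ (-(a * X.wt m j)) * σ j z) 0 = b at h9
    cases b with
    | top => exact le_top
    | coe b =>
      have h11 : (0 : WithTop ℤ) ≤ ((X.e j * b : ℤ) : WithTop ℤ) := by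
        simpa using h9
      have h12 : 0 ≤ (X.e j : ℤ) * b := by exact_mod_cast h11
      have h13 : 0 ≤ b := nonneg_of_mul_nonneg_right h12 (by exact_mod_cast hej)
      exact_mod_cast h13
  choose v' hv'1 hv'2 using h4
  -- a disc where everything holds
  have hall : ∀ᶠ z in 𝓝[≠] (0 : ℂ), (∀ i, u z i = ρ i z * u z 0) ∧
      (∀ j, v z j = σ j z * u z 0 ^ X.wt m j) ∧ u z 0 ≠ 0 ∧ (∀ i, AnalyticAt ℂ (u' i) z) ∧
      (∀ j, AnalyticAt ℂ (v' j) z) := by
    refine (Filter.eventually_all.mpr hρ2).and ((Filter.eventually_all.mpr hσ2).and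
      (hn0.and ((Filter.eventually_all.mpr fun i => ?_).and (Filter.eventually_all.mpr fun j => ?_))))
    · exact nhdsWithin_le_nhds (hu'1 i).eventually_analyticAt
    · exact nhdsWithin_le_nhds (hv'1 j).eventually_analyticAt
  obtain ⟨δ, hδ, hδ1⟩ := ev_iff.mp hall
  have hmemPB : ∀ z ∈ ball (0 : ℂ) δ, z ≠ 0 → z ∈ PB δ := fun z hz hz0 =>
    ⟨hz0, by simpa using hz⟩
  refine ⟨δ, hδ, fun z i => u' i z, fun z j => v' j z, ?_, ?_, ?_, ?_⟩
  · rw [differentiableOn_pi]
    intro i z hz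
    by_cases hz0 : z = 0
    · rw [hz0]
      exact (hu'1 i).differentiableAt.differentiableWithinAt
    · exact ((hδ1 z (hmemPB z hz hz0)).2.2.2.1 i).differentiableAt.differentiableWithinAt
  · rw [differentiableOn_pi]
    intro j z hz
    by_cases hz0 : z = 0
    · rw [hz0]
      exact (hv'1 j).differentiableAt.differentiableWithinAt
    · exact ((hδ1 z (hmemPB z hz hz0)).2.2.2.2 j).differentiableAt.differentiableWithinAt
  · intro z hz h0
    by_cases hz0 : z = 0
    · have h5 : meromorphicOrderAt (fun z => z ^ (-a) * ρ i0 z) 0 = 0 := by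
        have h6 : meromorphicOrderAt (fun z => z ^ (-a) * ρ i0 z) 0
            = ((-a : ℤ) : WithTop ℤ) + meromorphicOrderAt (ρ i0) 0 := by
          rw [← hzpo (-a)]
          exact meromorphicOrderAt_mul (hzp _) (hρ1 i0)
        rw [h6, ha, ← WithTop.coe_add, neg_add_cancel]
        rfl
      have h6 := hu'3 i0 h5
      rw [hz0] at h0
      exact h6 (congrFun h0 i0)
    · have h5 := (hδ1 z (hmemPB z hz hz0)).1 0
      have h6 := (hδ1 z (hmemPB z hz hz0)).2.2.1
      have h7 : ρ 0 z ≠ 0 := by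
        intro h8
        rw [h8, zero_mul] at h5
        exact h6 h5
      have h8 := congrFun h0 0
      simp only [Pi.zero_apply] at h8
      rw [hu'2 0 z hz0] at h8
      exact (mul_ne_zero (zpow_ne_zero _ hz0) h7) h8
  · intro z hz
    have hz0 : z ≠ 0 := hz.2
    obtain ⟨e1, e2, e3, _⟩ := hδ1 z (hmemPB z hz.1 hz0)
    refine ⟨u z 0 * z ^ a, mul_ne_zero e3 (zpow_ne_zero _ hz0), fun i => ?_, fun j => ?_⟩
    · change u z i = u z 0 * z ^ a * u' i z
      rw [hu'2 i z hz0, e1 i]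
      have : z ^ a * z ^ (-a) = 1 := by
        rw [← zpow_add₀ hz0, add_neg_cancel, zpow_zero]
      linear_combination (-(u z 0 * ρ i z)) * this
    · change v z j = (u z 0 * z ^ a) ^ X.wt m j * v' j z
      rw [hv'2 j z hz0, e2 j, mul_pow]
      have : (z ^ a) ^ X.wt m j * z ^ (-(a * X.wt m j)) = 1 := by
        rw [← zpow_natCast, ← zpow_mul, ← zpow_add₀ hz0, add_neg_cancel, zpow_zero]
      linear_combination (-(u z 0 ^ X.wt m j * σ j z)) * this

theorem t_disc : St_disc := by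
  classical
  intro n r X m μ g k G hg hG0 hlg hμ hm he hval hcurves L _ _ t w hL
  obtain ⟨kP, P, hP1, hP2, hP3⟩ := hform_ne hG0
  -- the exceptional set
  refine ⟨(∏ i, MvPolynomial.X (Sum.inl i)) * ((∏ j, pw r m (X.F j)) * pw r m P),
    (∑ _i : Fin (n + 1), 1) + ((∑ j, m * X.d j) + m * kP), ?_, ?_, ?_⟩
  · refine IsWeightedHomogeneous.mul (IsWeightedHomogeneous.prod _ _ _ fun i _ => wh_X X m i) ?_
    exact IsWeightedHomogeneous.mul (IsWeightedHomogeneous.prod _ _ _ fun j _ =>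
      wh_pw X m (X.hF j)) (wh_pw X m hP1)
  · rw [map_mul, map_mul, map_prod, map_prod, aeval_pw]
    refine mul_ne_zero (Finset.prod_ne_zero_iff.mpr fun i _ => ?_)
      (mul_ne_zero (Finset.prod_ne_zero_iff.mpr fun j _ => ?_) (pw_ne hm hL hP1 hP2))
    · rw [aeval_X, Sum.elim_inl]
      exact t_ne hL i
    · rw [aeval_pw]
      exact pw_ne hm hL (X.hF j) (X.hF0 j)
  rintro u v h ⟨p, hp, hBp⟩
  rw [map_mul, map_mul, map_prod, map_prod, eval_pw] at hBp
  have hp1 : ∀ i, u p i ≠ 0 := fun i => by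
    have := Finset.prod_ne_zero_iff.mp (left_ne_zero_of_mul hBp) i (Finset.mem_univ i)
    rwa [eval_X, Sum.elim_inl] at this
  have hp2 : ∀ j, eval (fun i => u p i ^ m) (X.F j) ≠ 0 := fun j => by
    have := Finset.prod_ne_zero_iff.mp (left_ne_zero_of_mul (right_ne_zero_of_mul hBp)) j
      (Finset.mem_univ j)
    rwa [eval_pw] at this
  have hp3 : lev G (tor (fun i => u p i ^ m)) ≠ 0 :=
    hP3 _ (fun i => pow_ne_zero _ (hp1 i)) (right_ne_zero_of_mul (right_ne_zero_of_mul hBp))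
  have hu := fun i => an_of_diffOn' h.diffu i
  have hv := fun j => an_of_diffOn' h.diffv j
  have hmem : ∀ z ∈ PB 1, Pt X m t w (u z) (v z) := fun z hz => h.mem z (mem_disc.mpr hz)
  have hinv : ∀ z ∈ Ext 1, z⁻¹ ∈ PB 1 := fun z hz =>
    inv_mem_PB one_pos (by rw [inv_one]; exact hz)
  have hinv' : ∀ w ∈ PB 1, w⁻¹ ∈ Ext 1 := fun w hw => by
    have := inv_mem_Ext hw
    rwa [inv_one] at this
  have hz0 : ∀ z ∈ Ext 1, z ≠ 0 := fun z hz => ext_ne_zero zero_le_one hz
  have hpE : p⁻¹ ∈ Ext 1 := hinv' p (mem_disc.mp hp)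
  have huE : ∀ i, AnalyticOnNhd ℂ (fun z => u z⁻¹ i) (Ext 1) := fun i z hz =>
    (hu i z⁻¹ (hinv z hz)).comp_of_eq (analyticAt_inv (hz0 z hz)) rfl
  have hvE : ∀ j, AnalyticOnNhd ℂ (fun z => v z⁻¹ j) (Ext 1) := fun j z hz =>
    (hv j z⁻¹ (hinv z hz)).comp_of_eq (analyticAt_inv (hz0 z hz)) rfl
  -- the curve
  let c : Curve n :=
    { r0 := 1
      X := fun i z => u z⁻¹ i ^ m
      hr0 := le_rfl
      an := fun i z hz => (huE i z hz).fun_pow m
      ncz := by
        intro z hz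
        by_contra hcon
        push Not at hcon
        exact (hmem _ (hinv z hz)).1 (funext fun i => eq_zero_of_pow_eq_zero (hcon i))
      nz := fun i => ⟨p⁻¹, hpE, by simp only [inv_inv]; exact pow_ne_zero _ (hp1 i)⟩ }
  have hpU : p⁻¹ ∈ c.U := ⟨hpE, fun i => by
    change u p⁻¹⁻¹ i ^ m ≠ 0
    rw [inv_inv]
    exact pow_ne_zero _ (hp1 i)⟩
  have hadm : Adm ⊥ (laur g) μ c := by
    refine ⟨fun g' hg' => ?_, fun i z hz h0 => ?_, fun z hz h0 => ?_⟩
    · rw [Ideal.mem_bot.mp hg', map_zero]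
    · have h1 : u z⁻¹ i = 0 := eq_zero_of_pow_eq_zero h0
      have h2 : analyticOrderAt (fun z => u z⁻¹ i) z ≠ 0 :=
        (huE i z hz).analyticOrderAt_ne_zero.mpr h1
      have h3 : analyticOrderAt (c.X i) z = m • analyticOrderAt (fun z => u z⁻¹ i) z :=
        analyticOrderAt_pow (huE i z hz) m
      rw [h3]
      have h4 : (1 : ℕ∞) ≤ analyticOrderAt (fun z => u z⁻¹ i) z := Order.one_le_iff_pos.mpr
        (pos_iff_ne_zero.mpr h2)
      calc (μ : ℕ∞) ≤ (m : ℕ∞) := by exact_mod_cast hμ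
        _ = m * 1 := (mul_one _).symm
        _ ≤ m * analyticOrderAt (fun z => u z⁻¹ i) z := mul_le_mul_right h4 _
        _ = _ := by rw [nsmul_eq_mul]
    · have hzE : z ∈ Ext 1 := hz.1
      have hx : ∀ i, AnalyticAt ℂ (fun y => c.X i y / c.X 0 y) z := fun i =>
        (c.an i z hz.1).fun_div (c.an 0 z hz.1) (hz.2 0)
      obtain ⟨hV, han⟩ := isV_ord (x := fun i y => c.X i y / c.X 0 y) hx
      have hne : ∀ i, u z⁻¹ i ≠ 0 := fun i hi => hz.2 i (by
        change u z⁻¹ i ^ m = 0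
        rw [hi, zero_pow hm.ne'])
      have key := hval _ hV (fun i => by
        change meromorphicOrderAt (fun y => eval (fun i => c.X i y / c.X 0 y)
          (MvPolynomial.X i)) z = 0
        simp only [eval_X]
        rw [(hx i).meromorphicOrderAt_eq, (hx i).analyticOrderAt_eq_zero.mpr
          (div_ne_zero (hz.2 i) (hz.2 0))]
        rfl) (by
        change meromorphicOrderAt (fun y => eval (fun i => c.X i y / c.X 0 y) X.G) z = 0
        rw [(han X.G).meromorphicOrderAt_eq, (han X.G).analyticOrderAt_eq_zero.mpr]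
        · rfl
        · intro h1
          have h2 := (hmem _ (hinv z hzE)).2.2
          apply h2
          have h3 : (fun i => u z⁻¹ i ^ m) = fun i => c.X 0 z * (c.X i z / c.X 0 z) := by
            funext i
            rw [mul_div_cancel₀ _ (hz.2 0)]
          rw [h3, ← aeval_eq_eval, hom_smul X.hG, aeval_eq_eval, h1, mul_zero]) (fun j => by
        -- the function `v j` divided by a power of `u 0`
        have hψ : AnalyticAt ℂ (fun y => v y⁻¹ j / u y⁻¹ 0 ^ X.wt m j) z :=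
          (hvE j z hzE).fun_div ((huE 0 z hzE).fun_pow _) (pow_ne_zero _ (hne 0))
        have hψ2 : (fun y => eval (fun i => c.X i y / c.X 0 y) (X.F j)) =ᶠ[𝓝[≠] z]
            fun y => (v y⁻¹ j / u y⁻¹ 0 ^ X.wt m j) ^ X.e j := by
          filter_upwards [nhdsWithin_le_nhds (c.U_open.mem_nhds hz)] with y hy
          have hy0 : u y⁻¹ 0 ≠ 0 := fun hi => hy.2 0 (by
            change u y⁻¹ 0 ^ m = 0
            rw [hi, zero_pow hm.ne'])
          have h3 : (fun i => u y⁻¹ i ^ m) = fun i => c.X 0 y * (c.X i y / c.X 0 y) := by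
            funext i
            rw [mul_div_cancel₀ _ (hy.2 0)]
          have h4 := pt_eqn he hL (hmem _ (hinv y hy.1)) j
          rw [h3, ← aeval_eq_eval, hom_smul (X.hF j), aeval_eq_eval] at h4
          have h5 : (u y⁻¹ 0 ^ X.wt m j) ^ X.e j = (u y⁻¹ 0 ^ m) ^ X.d j := by
            rw [← pow_mul, mul_comm (X.wt m j), wt_mul X he j, pow_mul]
          rw [div_pow, h4, h5]
          exact (mul_div_cancel_left₀ _ (pow_ne_zero _ (pow_ne_zero _ hy0))).symm
        have hψ3 : meromorphicOrderAt (fun y => v y⁻¹ j / u y⁻¹ 0 ^ X.wt m j) z ≠ ⊤ := by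
          intro htop
          rw [meromorphicOrderAt_eq_top_iff] at htop
          have h3 : ∀ᶠ y in 𝓝[≠] z, v y⁻¹ j = 0 := by
            filter_upwards [htop, nhdsWithin_le_nhds (c.U_open.mem_nhds hz)] with y hy1 hy2
            have hy0 : u y⁻¹ 0 ≠ 0 := fun hi => hy2.2 0 (by
              change u y⁻¹ 0 ^ m = 0
              rw [hi, zero_pow hm.ne'])
            exact (div_eq_zero_iff.mp hy1).resolve_right (pow_ne_zero _ hy0)
          have h4 := (hvE j).eqOn_zero_of_preconnected_of_frequently_eq_zero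
            (Ext_preconn one_pos) hzE h3.frequently hpE
          have h5 : v p j = 0 := by
            have : v p⁻¹⁻¹ j = 0 := h4
            rwa [inv_inv] at this
          have h6 := pt_eqn he hL (h.mem p hp) j
          rw [h5, zero_pow (X.he j).ne'] at h6
          exact hp2 j h6.symm
        obtain ⟨b, hb⟩ : ∃ b : ℤ,
            meromorphicOrderAt (fun y => v y⁻¹ j / u y⁻¹ 0 ^ X.wt m j) z = b :=
          ⟨_, (WithTop.coe_untop _ hψ3).symm⟩
        refine ⟨b, ?_⟩
        change meromorphicOrderAt (fun y => eval (fun i => c.X i y / c.X 0 y) (X.F j)) z = _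
        rw [meromorphicOrderAt_congr hψ2]
        have h4 : meromorphicOrderAt (fun y => (v y⁻¹ j / u y⁻¹ 0 ^ X.wt m j) ^ X.e j) z
            = X.e j * meromorphicOrderAt (fun y => v y⁻¹ j / u y⁻¹ 0 ^ X.wt m j) z :=
          meromorphicOrderAt_pow hψ.meromorphicAt
        rw [h4, hb]
        push_cast
        rfl)
      have h2 : c.val (c.ev (laur g)) =ᶠ[𝓝[≠] z]
          fun y => eval (fun i => c.X i y / c.X 0 y) g := by
        filter_upwards [nhdsWithin_le_nhds (c.U_open.mem_nhds hz)] with y hy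
        exact val_laur c g hy
      rw [val_laur c g hz] at h0
      unfold Curve.ord
      rw [meromorphicOrderAt_congr h2]
      have h3 : analyticOrderAt (fun y => eval (fun i => c.X i y / c.X 0 y) g) z ≠ 0 :=
        (han g).analyticOrderAt_ne_zero.mpr h0
      change meromorphicOrderAt (fun y => eval (fun i => c.X i y / c.X 0 y) g) z ≠ 1 at key
      rw [(han g).meromorphicOrderAt_eq] at key ⊢
      generalize analyticOrderAt (fun y => eval (fun i => c.X i y / c.X 0 y) g) z = a at h3 key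
      cases a with
      | top => exact le_top
      | coe a =>
        rw [ENat.map_natCast] at key ⊢
        have h4 : a ≠ 0 := fun h => h3 (by rw [h]; rfl)
        have h5 : a ≠ 1 := fun h => key (by rw [h]; rfl)
        have h6 : 2 ≤ a := by omega
        have h7 : (2 : ℤ) ≤ (a : ℤ) := by exact_mod_cast h6
        exact WithTop.coe_le_coe.mpr h7
  have hG : c.ev G ≠ 0 := by
    intro h0
    apply hp3
    have h1 := val_ev c G hpU
    rw [h0] at h1
    have h2 : c.val 0 p⁻¹ = 0 := by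
      have := c.val_smul 0 (0 : c.Mr) p⁻¹
      rw [zero_smul, zero_mul] at this
      exact this
    rw [h2] at h1
    have h3 : (fun i => c.xf i p⁻¹) = tor (fun i => u p i ^ m) := by
      funext i
      change u p⁻¹⁻¹ i.succ ^ m / u p⁻¹⁻¹ 0 ^ m = u p i.succ ^ m / u p 0 ^ m
      rw [inv_inv]
    rw [← h3, ← h1]
  refine ext_of_rel hm he hu hv (fun z hz => (hmem z hz).1) (fun z hz j =>
    pt_eqn he hL (hmem z hz) j) fun i => ?_
  obtain ⟨S, hS, R0, hSe⟩ := hcurves c hadm hG i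
  refine ⟨fun w => S w⁻¹, hS, ?_⟩
  rw [ev_iff]
  set R1 : ℝ := max R0 1 with hR1
  have hR1pos : 0 < R1 := lt_of_lt_of_le one_pos (le_max_right _ _)
  refine ⟨R1⁻¹, inv_pos.mpr hR1pos, ?_⟩
  intro w hw
  have hw' : R1 < ‖w⁻¹‖ := by
    have := inv_mem_Ext hw
    rwa [inv_inv] at this
  have h1 := hSe w⁻¹ (lt_of_le_of_lt (le_max_left _ _) hw')
  have h2 : u w⁻¹⁻¹ i ^ m = S w⁻¹ * u w⁻¹⁻¹ 0 ^ m := h1
  rw [inv_inv] at h2
  exact h2

end Pool.Agent.Y517.KC
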