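import Pool.Agent.Y192.KC.Stm

/-!
Polynomials in the `m`-th powers of the coordinates of a cover.
-/

set_option autoImplicit false

namespace Pool.Agent.Y517.KC

open MvPolynomial Pool.Agent.Y192.KC Pool.Agent.Y192.OG

variable {n r : ℕ}

/-- a form in the `m`-th powers of the coordinates -/
noncomputable def pw (r m : ℕ) (A : MvPolynomial (Fin (n + 1)) ℂ) : Poly n r :=
  aeval (fun i => (X (Sum.inl i) : Poly n r) ^ m) A

theorem aeval_pw {L : Type} [CommRing L] [Algebra ℂ L] (m : ℕ) (A : MvPolynomial (Fin (n + 1)) ℂ)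
    (t : Fin (n + 1) → L) (w : Fin r → L) :
    aeval (Sum.elim t w) (pw r m A) = aeval (fun i => t i ^ m) A := by
  unfold pw
  rw [← AlgHom.comp_apply, comp_aeval]
  simp only [map_pow, aeval_X, Sum.elim_inl]

theorem eval_pw (m : ℕ) (A : MvPolynomial (Fin (n + 1)) ℂ)
    (u : Fin (n + 1) → ℂ) (v : Fin r → ℂ) :
    eval (Sum.elim u v) (pw r m A) = eval (fun i => u i ^ m) A := by
  have := aeval_pw m A u v
  rwa [aeval_eq_eval, aeval_eq_eval] at this

theorem wh_X (X' : Cov n r) (m : ℕ) (i : Fin (n + 1)) :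
    WH X' m (X (Sum.inl i)) 1 := isWeightedHomogeneous_X _ _ _

theorem wh_Y (X' : Cov n r) (m : ℕ) (j : Fin r) :
    WH X' m (X (Sum.inr j)) (X'.wt m j) := isWeightedHomogeneous_X _ _ _

theorem wh_pow (X' : Cov n r) (m : ℕ) {A : Poly n r} {d : ℕ} (h : WH X' m A d) (k : ℕ) :
    WH X' m (A ^ k) (k * d) := by
  have := IsWeightedHomogeneous.pow h k
  rw [smul_eq_mul] at this
  exact this

theorem wh_pw (X' : Cov n r) (m : ℕ) {A : MvPolynomial (Fin (n + 1)) ℂ} {d : ℕ}
    (hA : A.IsHomogeneous d) : WH X' m (pw r m A) (m * d) := by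
  unfold pw
  rw [aeval_def, eval₂_eq']
  refine Submodule.sum_mem (weightedHomogeneousSubmodule ℂ _ _) fun c hc => ?_
  rw [mem_weightedHomogeneousSubmodule]
  have h1 : ∑ i, c i = d := by
    have := hA (mem_support_iff.mp hc)
    rw [Finsupp.weight_apply, Finsupp.sum_fintype _ _ (by simp)] at this
    simpa using this
  have h2 : IsWeightedHomogeneous (Sum.elim (fun _ => 1) (X'.wt m))
      (∏ i, ((X (Sum.inl i) : Poly n r) ^ m) ^ c i) (∑ i, c i * (m * 1)) := by
    refine IsWeightedHomogeneous.prod _ _ _ fun i _ => ?_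
    exact wh_pow X' m (wh_pow X' m (wh_X X' m i) m) (c i)
  have h3 : ∑ i, c i * (m * 1) = m * d := by
    rw [← Finset.sum_mul, h1]
    ring
  rw [h3] at h2
  have h4 := (isWeightedHomogeneous_C (R := ℂ)
    (Sum.elim (fun _ : Fin (n + 1) => 1) (X'.wt m)) (coeff c A)).mul h2
  rw [zero_add] at h4
  exact h4

theorem wt_mul (X' : Cov n r) {m : ℕ} (he : ∀ j, X'.e j ∣ m) (j : Fin r) :
    X'.e j * X'.wt m j = m * X'.d j := by
  unfold Cov.wt
  exact Nat.mul_div_cancel' ((he j).mul_right _)

/-- the equation of the cover, at complex points -/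
theorem pt_eqn {X' : Cov n r} {m : ℕ} (he : ∀ j, X'.e j ∣ m) {L : Type} [Field L] [Algebra ℂ L]
    {t : Fin (n + 1) → L} {w : Fin r → L} (hL : FunctionField X' m L t w)
    {u : Fin (n + 1) → ℂ} {v : Fin r → ℂ} (h : Pt X' m t w u v) (j : Fin r) :
    v j ^ X'.e j = eval (fun i => u i ^ m) (X'.F j) := by
  have h1 := h.2.1 (X (Sum.inr j) ^ X'.e j - pw r m (X'.F j)) (m * X'.d j) (by
    refine Submodule.sub_mem (weightedHomogeneousSubmodule ℂ _ _) ?_ ?_
    · rw [mem_weightedHomogeneousSubmodule, ← wt_mul X' he j]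
      exact wh_pow X' m (wh_Y X' m j) _
    · exact wh_pw X' m (X'.hF j)) (by
    rw [map_sub, map_pow, aeval_X, Sum.elim_inr, aeval_pw, hL.eqn j, sub_self])
  rw [map_sub, map_pow, eval_X, Sum.elim_inr, eval_pw] at h1
  exact sub_eq_zero.mp h1

/-- a homogeneous polynomial at a multiple of a point -/
theorem hom_smul {L : Type} [CommRing L] [Algebra ℂ L] {A : MvPolynomial (Fin (n + 1)) ℂ} {d : ℕ}
    (hA : A.IsHomogeneous d) (s : L) (x : Fin (n + 1) → L) :
    aeval (fun i => s * x i) A = s ^ d * aeval x A := by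
  rw [aeval_def, aeval_def, eval₂_eq', eval₂_eq', Finset.mul_sum]
  refine Finset.sum_congr rfl fun c hc => ?_
  have h1 : ∑ i, c i = d := by
    have := hA (mem_support_iff.mp hc)
    rw [Finsupp.weight_apply, Finsupp.sum_fintype _ _ (by simp)] at this
    simpa using this
  simp only [mul_pow]
  rw [Finset.prod_mul_distrib, Finset.prod_pow_eq_pow_sum, h1]
  ring

theorem t_ne {X' : Cov n r} {m : ℕ} {L : Type} [Field L] [Algebra ℂ L]
    {t : Fin (n + 1) → L} {w : Fin r → L} (hL : FunctionField X' m L t w) (i : Fin (n + 1)) :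
    t i ≠ 0 := by
  refine Fin.cases hL.ne (fun i => ?_) i
  intro h
  have h1 := hL.ind.ne_zero i
  exact h1 (by rw [h, zero_div])

/-- forms in the `m`-th powers of the coordinates do not vanish at the generic point -/
theorem pw_ne {X' : Cov n r} {m : ℕ} (hm : 0 < m) {L : Type} [Field L] [Algebra ℂ L]
    {t : Fin (n + 1) → L} {w : Fin r → L} (hL : FunctionField X' m L t w)
    {A : MvPolynomial (Fin (n + 1)) ℂ} {d : ℕ} (hA : A.IsHomogeneous d) (hA0 : A ≠ 0) :
    aeval (fun i => t i ^ m) A ≠ 0 := by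
  intro h0
  apply hA0
  -- the dehomogenization in the `m`-th powers
  set A1 : MvPolynomial (Fin n) ℂ :=
    aeval (Fin.cons (α := fun _ => MvPolynomial (Fin n) ℂ) 1 (fun i => X i ^ m)) A with hA1
  have ht0 := hL.ne
  have h1 : (fun i => t i ^ m) = fun i => t 0 ^ m * (t i / t 0) ^ m := by
    funext i
    rw [div_pow]
    field_simp
  rw [h1, hom_smul hA] at h0
  have h2 : aeval (fun i => (t i / t 0) ^ m) A = 0 :=
    (mul_eq_zero.mp h0).resolve_left (pow_ne_zero _ (pow_ne_zero _ ht0))
  have h3 : aeval (fun i : Fin n => t i.succ / t 0) A1 = 0 := by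
    rw [hA1, ← AlgHom.comp_apply, comp_aeval, ← h2]
    congr 2
    funext i
    refine Fin.cases ?_ (fun i => ?_) i
    · simp [div_self ht0]
    · simp
  have h4 : A1 = 0 := by
    have := hL.ind
    rw [algebraicIndependent_iff] at this
    exact this A1 h3
  have h5 : A * X 0 = 0 := by
    apply MvPolynomial.funext
    intro x
    rw [map_mul, eval_X, map_zero]
    by_cases hx : x 0 = 0
    · rw [hx, mul_zero]
    · have hroot : ∀ i : Fin n, ∃ y : ℂ, y ^ m = x i.succ / x 0 := fun i =>
        IsAlgClosed.exists_pow_nat_eq _ hm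
      choose y hy using hroot
      have h6 : eval y A1 = 0 := by rw [h4, map_zero]
      have h7 : eval (fun i => x i / x 0) A = 0 := by
        rw [← h6, ← aeval_eq_eval, ← aeval_eq_eval, hA1, ← AlgHom.comp_apply, comp_aeval]
        congr 2
        funext i
        refine Fin.cases ?_ (fun i => ?_) i
        · simp [div_self hx]
        · simp [hy]
      have h8 : x = fun i => x 0 * (x i / x 0) := by
        funext i
        field_simp
      rw [h8, ← aeval_eq_eval, hom_smul hA, aeval_eq_eval, h7, mul_zero, zero_mul]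
  exact (mul_eq_zero.mp h5).resolve_right (X_ne_zero _)

/-- a Laurent polynomial which vanishes on the torus is zero -/
theorem lev_inj {g : Lau n} (h : ∀ x : Fin n → ℂ, (∀ i, x i ≠ 0) → lev g x = 0) : g = 0 := by
  classical
  -- the characters of the torus
  let χ : (Fin n → ℤ) → ((Fin n → ℂˣ) →* ℂ) := fun c =>
    { toFun := fun x => ∏ i, ((x i : ℂ)) ^ c i
      map_one' := by simp
      map_mul' := fun x y => by
        rw [← Finset.prod_mul_distrib]
        exact Finset.prod_congr rfl fun i _ => by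
          rw [Pi.mul_apply, Units.val_mul, mul_zpow] }
  have hχ : Function.Injective χ := by
    intro c c' hcc
    funext i
    have h1 := DFunLike.congr_fun hcc (Pi.mulSingle i (Units.mk0 (2 : ℂ) two_ne_zero))
    change ∏ k, (((Pi.mulSingle i (Units.mk0 (2 : ℂ) two_ne_zero) : Fin n → ℂˣ) k : ℂ)) ^ c k
      = ∏ k, (((Pi.mulSingle i (Units.mk0 (2 : ℂ) two_ne_zero) : Fin n → ℂˣ) k : ℂ)) ^ c' k at h1
    have h2 : ∀ d : Fin n → ℤ,
        ∏ k, (((Pi.mulSingle i (Units.mk0 (2 : ℂ) two_ne_zero) : Fin n → ℂˣ) k : ℂ)) ^ d k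
          = 2 ^ d i := by
      intro d
      rw [Finset.prod_eq_single i]
      · simp
      · intro k _ hk
        rw [Pi.mulSingle_eq_of_ne hk]
        simp
      · intro hi
        exact absurd (Finset.mem_univ i) hi
    rw [h2, h2] at h1
    have h3 := congrArg norm h1
    rw [norm_zpow, norm_zpow] at h3
    have h4 : ‖(2 : ℂ)‖ = 2 := by simp
    rw [h4] at h3
    exact zpow_right_injective₀ (by norm_num) (by norm_num) h3
  have hli := (linearIndependent_monoidHom (Fin n → ℂˣ) ℂ).comp χ hχ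
  rw [linearIndependent_iff] at hli
  have h1 : g.coeff = 0 := by
    apply hli
    funext x
    rw [Finsupp.linearCombination_apply]
    have h2 := h (fun i => (x i : ℂ)) (fun i => (x i).ne_zero)
    unfold lev at h2
    rw [Finsupp.sum_apply']
    exact h2
  apply AddMonoidAlgebra.coeff_injective
  rw [h1]
  rfl

theorem hform_ne {g : Lau n} (hg : g ≠ 0) : ∃ (k : ℕ) (P : MvPolynomial (Fin (n + 1)) ℂ),
    P.IsHomogeneous k ∧ P ≠ 0 ∧ ∀ v : Fin (n + 1) → ℂ, (∀ i, v i ≠ 0) → eval v P ≠ 0 →
      lev g (tor v) ≠ 0 := by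
  obtain ⟨k, hk⟩ := hform g
  obtain ⟨P, hP1, hP2⟩ := hk k k le_rfl le_rfl
  refine ⟨k + n * k, P, hP1, ?_, ?_⟩
  · intro h0
    apply hg
    apply lev_inj
    intro x hx
    have h1 := hP2 (Fin.cons 1 x) (fun i => by
      refine Fin.cases ?_ (fun i => ?_) i
      · simp
      · simpa using hx i)
    rw [h0, map_zero] at h1
    have h2 : tor (Fin.cons 1 x : Fin (n + 1) → ℂ) = x := by
      funext i
      simp [tor]
    rw [h2] at h1
    refine (mul_eq_zero.mp h1.symm).resolve_left ?_
    refine mul_ne_zero (pow_ne_zero _ (by simp)) ?_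
    exact Finset.prod_ne_zero_iff.mpr fun i _ => pow_ne_zero _ (by simpa using hx i)
  · intro v hv h1
    rw [hP2 v hv] at h1
    exact right_ne_zero_of_mul h1

end Pool.Agent.Y517.KC
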